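import Pool.Agent.H85.BC.Basic

/-!
# Bicommutant-good II₁ factors, row SCT

Isomorphisms of corners scale the trace.
-/

set_option autoImplicit false
set_option linter.unusedSectionVars false

open scoped InnerProductSpace Topology
open Filter

namespace Pool.Agent.H20.BC

open Pool.Agent.H85.BC

section
variable {H : Type} [NormedAddCommGroup H] [InnerProductSpace ℂ H] [CompleteSpace H]

/-- Square roots in a corner. -/
lemma corner_sqrt {M : VonNeumannAlgebra H} {p d : H →L[ℂ] H} (hp : IsStarProjection p)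
    (hd : d ∈ corner M p) (h0 : 0 ≤ d) :
    ∃ r ∈ corner M p, star r = r ∧ r * r = d := by
  have hr0 : 0 ≤ CFC.sqrt d := CFC.sqrt_nonneg d
  have hrr : CFC.sqrt d * CFC.sqrt d = d := CFC.sqrt_mul_sqrt_self d h0
  have hrs : star (CFC.sqrt d) = CFC.sqrt d := (IsSelfAdjoint.of_nonneg hr0).star_eq
  have hrM : CFC.sqrt d ∈ M := by
    apply mem_of_commutant
    intro t ht
    have hc : Commute d t := ht d hd.1
    have h1 : Commute (CFC.sqrt d) t := hc.cfcₙ_nnreal _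
    exact h1.eq.symm
  have hpr : p * CFC.sqrt d = CFC.sqrt d := by
    have h1 : (1 - p) * CFC.sqrt d * star ((1 - p) * CFC.sqrt d) = 0 := by
      rw [star_mul, hrs, star_sub, star_one, hp.isSelfAdjoint.star_eq]
      calc (1 - p) * CFC.sqrt d * (CFC.sqrt d * (1 - p))
          = (1 - p) * (CFC.sqrt d * CFC.sqrt d) * (1 - p) := by simp only [mul_assoc]
        _ = (1 - p) * d * (1 - p) := by rw [hrr]
        _ = 0 := by rw [sub_mul 1 p d, one_mul, corner_left hp hd, sub_self, zero_mul]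
    have h2 := CStarRing.mul_star_self_eq_zero_iff _ |>.1 h1
    rw [sub_mul, one_mul, sub_eq_zero] at h2
    exact h2.symm
  have hrp : CFC.sqrt d * p = CFC.sqrt d := by
    have h1 := congrArg star hpr
    rwa [star_mul, hrs, hp.isSelfAdjoint.star_eq] at h1
  exact ⟨CFC.sqrt d, mem_corner hrM hpr hrp, hrs, hrr⟩

/-- `ε p - d` is nonnegative for `‖d‖ ≤ ε`. -/
lemma nonneg_sub {M : VonNeumannAlgebra H} {p d : H →L[ℂ] H} (hp : IsStarProjection p)
    (hd : d ∈ corner M p) (hds : IsSelfAdjoint d) {ε : ℝ} (hε : ‖d‖ ≤ ε) :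
    0 ≤ (ε : ℂ) • p - d := by
  rw [ContinuousLinearMap.nonneg_iff_isPositive, ContinuousLinearMap.isPositive_def']
  refine ⟨?_, fun x => ?_⟩
  · apply IsSelfAdjoint.sub _ hds
    show star _ = _
    rw [star_smul, hp.isSelfAdjoint.star_eq]
    congr 1
    exact Complex.conj_ofReal _
  · have e1 : (inner ℂ x (((ε : ℂ) • p - d) x) : ℂ).re =
        ε * ‖p x‖ ^ 2 - (inner ℂ (p x) (d (p x)) : ℂ).re := by
      have h1 : (inner ℂ x (p x) : ℂ) = ((‖p x‖ ^ 2 : ℝ) : ℂ) := tr_proj x hp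
      have h2 : (inner ℂ x (d x) : ℂ) = inner ℂ (p x) (d (p x)) := by
        have h3 := inner_star_left p x (d (p x))
        rw [hp.isSelfAdjoint.star_eq] at h3
        rw [h3, ← mul_app d p, corner_right hp hd, ← mul_app p d, corner_left hp hd]
      rw [ContinuousLinearMap.sub_apply, ContinuousLinearMap.smul_apply, inner_sub_right,
        inner_smul_right, h1, h2, ← Complex.ofReal_mul, Complex.sub_re, Complex.ofReal_re]
    have e2 : (inner ℂ (((ε : ℂ) • p - d) x) x : ℂ).re =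
        (inner ℂ x (((ε : ℂ) • p - d) x) : ℂ).re := by
      rw [← inner_conj_symm]
      exact Complex.conj_re _
    have e3 : (inner ℂ (p x) (d (p x)) : ℂ).re ≤ ε * ‖p x‖ ^ 2 := by
      have h1 : (inner ℂ (p x) (d (p x)) : ℂ).re ≤ ‖(inner ℂ (p x) (d (p x)) : ℂ)‖ :=
        Complex.re_le_norm _
      have h2 : ‖(inner ℂ (p x) (d (p x)) : ℂ)‖ ≤ ‖p x‖ * ‖d (p x)‖ := norm_inner_le_norm _ _
      have h3 : ‖d (p x)‖ ≤ ε * ‖p x‖ :=
        (d.le_opNorm _).trans (mul_le_mul_of_nonneg_right hε (norm_nonneg _))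
      have h4 : ‖p x‖ * ‖d (p x)‖ ≤ ‖p x‖ * (ε * ‖p x‖) :=
        mul_le_mul_of_nonneg_left h3 (norm_nonneg _)
      calc _ ≤ _ := h1
        _ ≤ _ := h2
        _ ≤ _ := h4
        _ = _ := by ring
    have e4 : 0 ≤ (inner ℂ (((ε : ℂ) • p - d) x) x : ℂ).re := by
      rw [e2, e1]; linarith
    exact e4

/-- The functional `τ ∘ θ` on a corner is bounded by its value at the unit. -/
lemma sigma_bound {N : VonNeumannAlgebra H} {ξ : H} {p q : H →L[ℂ] H}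
    {θ : (H →L[ℂ] H) → (H →L[ℂ] H)} (h : CornerIso N p q θ)
    (hpN : p ∈ N) (hp : IsStarProjection p) (hqN : q ∈ N) (hq : IsStarProjection q)
    {d : H →L[ℂ] H} (hd : d ∈ corner N p) (hds : IsSelfAdjoint d) {ε : ℝ} (hε : ‖d‖ ≤ ε) :
    ‖tr ξ (θ d)‖ ≤ ε * ‖q ξ‖ ^ 2 := by
  have hpc := p_mem_corner hpN hp
  have key : ∀ g ∈ corner N p, IsSelfAdjoint g → ‖g‖ ≤ ε →
      ∃ t : ℝ, 0 ≤ t ∧ tr ξ (θ g) = ((ε * ‖q ξ‖ ^ 2 - t : ℝ) : ℂ) := by
    intro g hg hgs hgε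
    have hc : (ε : ℂ) • p - g ∈ corner N p := corner_sub (corner_smul _ hpc) hg
    obtain ⟨r, hr, hrs, hrr⟩ := corner_sqrt hp hc (nonneg_sub hp hg hgs hgε)
    refine ⟨‖θ r ξ‖ ^ 2, by positivity, ?_⟩
    have h1 : θ ((ε : ℂ) • p - g) = (ε : ℂ) • q - θ g := by
      rw [h.sub (corner_smul _ hpc) hg, h.smul _ p hpc, h.map_unit hpN hp hqN hq]
    have h2 : θ ((ε : ℂ) • p - g) = star (θ r) * θ r := by
      rw [← h.star r hr, hrs, ← h.mul r hr r hr, hrr]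
    have h3 := congrArg (tr ξ) (h1.symm.trans h2)
    rw [tr_sub, tr_smul, tr_proj ξ hq, tr_star_mul_self] at h3
    have h4 : tr ξ (θ g) = (ε : ℂ) * ((‖q ξ‖ ^ 2 : ℝ) : ℂ) - ((‖θ r ξ‖ ^ 2 : ℝ) : ℂ) := by
      rw [← h3]; ring
    rw [h4]
    push_cast
    ring
  obtain ⟨t, ht, h1⟩ := key d hd hds hε
  have hdneg : -d ∈ corner N p := by
    have := corner_smul (-1 : ℂ) hd
    rwa [neg_one_smul] at this
  obtain ⟨s, hs, h2⟩ := key (-d) hdneg hds.neg (by rwa [norm_neg])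
  have h3 : θ (-d) = -θ d := by
    have h4 := h.smul (-1) d hd
    rwa [neg_one_smul, neg_one_smul] at h4
  rw [h3, tr_neg, h1, ← Complex.ofReal_neg] at h2
  have h5 : -(ε * ‖q ξ‖ ^ 2 - t) = ε * ‖q ξ‖ ^ 2 - s := Complex.ofReal_injective h2
  rw [h1, Complex.norm_real, Real.norm_eq_abs, abs_le]
  constructor
  · linarith
  · linarith

theorem pf_SCT (hSCP : T_SCP H) (hSPN : T_SPN H) : T_SCT H := by
  intro N ξ hN p hpN hp q hqN hq θ h x hx
  have hξ := hN.traceVector.norm_eq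
  set b := star x * x with hb
  have hxs := corner_star hp hx
  have hbc : b ∈ corner N p := corner_mul hp hxs hx
  have hbs : IsSelfAdjoint b := IsSelfAdjoint.star_mul_self x
  have h1 : tr ξ (θ b) = ((‖θ x ξ‖ ^ 2 : ℝ) : ℂ) := by
    rw [hb, h.mul _ hxs x hx, h.star x hx, tr_star_mul_self]
  have h2 : tr ξ b = ((‖x ξ‖ ^ 2 : ℝ) : ℂ) := tr_star_mul_self ξ x
  -- the difference
  have hdiff : ∀ ε : ℝ, 0 < ε →
      ‖tr ξ (θ b) * ((‖p ξ‖ ^ 2 : ℝ) : ℂ) - ((‖q ξ‖ ^ 2 : ℝ) : ℂ) * tr ξ b‖ ≤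
        ε * (‖q ξ‖ ^ 2 * ‖p ξ‖ ^ 2 + ‖q ξ‖ ^ 2) := by
    intro ε hε
    obtain ⟨n, c, e, he, hn⟩ := hSPN N p hpN hp b hbc hbs ε hε
    have hec : ∀ i, e i ∈ corner N p := fun i =>
      proj_mem_corner hp (he i).1 (he i).2.1 (he i).2.2
    have hsum : ∀ s : Finset (Fin n), (∑ i ∈ s, ((c i : ℝ) : ℂ) • e i) ∈ corner N p ∧
        θ (∑ i ∈ s, ((c i : ℝ) : ℂ) • e i) = ∑ i ∈ s, ((c i : ℝ) : ℂ) • θ (e i) := by
      intro s
      classical
      induction s using Finset.induction_on with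
      | empty => exact ⟨⟨zero_mem N, by simp⟩, by simp [h.zero]⟩
      | insert i s hi ih =>
        rw [Finset.sum_insert hi, Finset.sum_insert hi]
        refine ⟨corner_add (corner_smul _ (hec i)) ih.1, ?_⟩
        rw [h.add _ (corner_smul _ (hec i)) _ ih.1, h.smul _ _ (hec i), ih.2]
    obtain ⟨hsc, hsθ⟩ := hsum Finset.univ
    set S := ∑ i, ((c i : ℝ) : ℂ) • e i with hS
    set d := b - S with hd
    have hdc : d ∈ corner N p := corner_sub hbc hsc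
    have hSs : IsSelfAdjoint S := by
      show star S = S
      rw [hS, star_sum]
      apply Finset.sum_congr rfl
      intro i _
      rw [star_smul, (he i).2.1.isSelfAdjoint.star_eq]
      congr 1
      exact Complex.conj_ofReal _
    have hds : IsSelfAdjoint d := hbs.sub hSs
    have hθ : tr ξ (θ b) = tr ξ (θ S) + tr ξ (θ d) := by
      rw [hd, h.sub hbc hsc, tr_sub]; ring
    have ht : tr ξ b = tr ξ S + tr ξ d := by
      rw [hd, tr_sub]; ring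
    have hS0 : tr ξ (θ S) * ((‖p ξ‖ ^ 2 : ℝ) : ℂ) = ((‖q ξ‖ ^ 2 : ℝ) : ℂ) * tr ξ S := by
      rw [hsθ, hS, tr_sum, tr_sum, Finset.sum_mul, Finset.mul_sum]
      apply Finset.sum_congr rfl
      intro i _
      rw [tr_smul, tr_smul, tr_proj ξ (he i).2.1,
        tr_proj ξ (h.map_proj hp (he i).1 (he i).2.1 (he i).2.2)]
      have h3 := hSCP N ξ hN p hpN hp q hqN hq θ h (e i) (he i).1 (he i).2.1 (he i).2.2
      have h4 : ((‖θ (e i) ξ‖ ^ 2 : ℝ) : ℂ) * ((‖p ξ‖ ^ 2 : ℝ) : ℂ) =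
          ((‖q ξ‖ ^ 2 : ℝ) : ℂ) * ((‖e i ξ‖ ^ 2 : ℝ) : ℂ) := by
        rw [← Complex.ofReal_mul, ← Complex.ofReal_mul, h3]
      rw [mul_assoc, h4]
      ring
    have hval : tr ξ (θ b) * ((‖p ξ‖ ^ 2 : ℝ) : ℂ) - ((‖q ξ‖ ^ 2 : ℝ) : ℂ) * tr ξ b =
        tr ξ (θ d) * ((‖p ξ‖ ^ 2 : ℝ) : ℂ) - ((‖q ξ‖ ^ 2 : ℝ) : ℂ) * tr ξ d := by
      rw [hθ, ht, add_mul, mul_add, hS0]; ring
    rw [hval]
    have b1 := sigma_bound (ξ := ξ) h hpN hp hqN hq hdc hds hn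
    have b2 : ‖tr ξ d‖ ≤ ε := by
      unfold tr
      refine (norm_inner_le_norm _ _).trans ?_
      rw [hξ, one_mul]
      refine (d.le_opNorm ξ).trans ?_
      rw [hξ, mul_one]
      exact hn
    refine (norm_sub_le _ _).trans ?_
    rw [norm_mul, norm_mul, Complex.norm_real, Complex.norm_real, Real.norm_eq_abs,
      Real.norm_eq_abs, abs_of_nonneg (by positivity : (0 : ℝ) ≤ ‖p ξ‖ ^ 2),
      abs_of_nonneg (by positivity : (0 : ℝ) ≤ ‖q ξ‖ ^ 2)]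
    have b3 := mul_le_mul_of_nonneg_right b1 (by positivity : (0 : ℝ) ≤ ‖p ξ‖ ^ 2)
    have b4 := mul_le_mul_of_nonneg_left b2 (by positivity : (0 : ℝ) ≤ ‖q ξ‖ ^ 2)
    linarith
  have hzero : ‖tr ξ (θ b) * ((‖p ξ‖ ^ 2 : ℝ) : ℂ) - ((‖q ξ‖ ^ 2 : ℝ) : ℂ) * tr ξ b‖ ≤ 0 := by
    by_contra hcon
    push Not at hcon
    set A := ‖tr ξ (θ b) * ((‖p ξ‖ ^ 2 : ℝ) : ℂ) - ((‖q ξ‖ ^ 2 : ℝ) : ℂ) * tr ξ b‖ with hA
    set K := ‖q ξ‖ ^ 2 * ‖p ξ‖ ^ 2 + ‖q ξ‖ ^ 2 with hK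
    have hK0 : 0 ≤ K := by positivity
    have h3 := hdiff (A / (2 * (K + 1))) (by positivity)
    have h4 : A / (2 * (K + 1)) * K ≤ A / 2 := by
      rw [div_mul_eq_mul_div, div_le_div_iff₀ (by positivity) (by norm_num)]
      nlinarith
    linarith
  have h5 := norm_le_zero_iff.1 hzero
  rw [h1, h2, sub_eq_zero, ← Complex.ofReal_mul, ← Complex.ofReal_mul] at h5
  exact Complex.ofReal_injective h5

end

end Pool.Agent.H20.BC
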