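import Pool.Agent.H85.BC.Basic

/-!
# Bicommutant-good II₁ factors, row SPN

Self-adjoint elements of a corner are norm limits of real combinations of projections.
-/

set_option autoImplicit false
set_option linter.unusedSectionVars false

open scoped InnerProductSpace Topology
open Filter

namespace Pool.Agent.H20.BC

open Pool.Agent.H85.BC

section
variable {H : Type} [NormedAddCommGroup H] [InnerProductSpace ℂ H] [CompleteSpace H]

/-- Real combinations of projections of `M` below `p`. -/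
def Comb (M : VonNeumannAlgebra H) (p b : H →L[ℂ] H) : Prop :=
  ∃ (n : ℕ) (c : Fin n → ℝ) (e : Fin n → (H →L[ℂ] H)),
    (∀ i, e i ∈ M ∧ IsStarProjection (e i) ∧ p * e i = e i) ∧
    b = ∑ i, ((c i : ℝ) : ℂ) • e i

lemma Comb.add_proj {M : VonNeumannAlgebra H} {p b f : H →L[ℂ] H} (h : Comb M p b)
    (hf : f ∈ M ∧ IsStarProjection f ∧ p * f = f) (s : ℝ) : Comb M p (b + (s : ℂ) • f) := by
  obtain ⟨n, c, e, he, hb⟩ := h
  refine ⟨n + 1, Fin.cons s c, Fin.cons f e, ?_, ?_⟩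
  · intro i
    refine Fin.cases ?_ (fun j => ?_) i
    · simpa using hf
    · simpa using he j
  · rw [Fin.sum_univ_succ, hb]
    simp only [Fin.cons_zero, Fin.cons_succ]
    rw [add_comm]

lemma inner_proj_left {e : H →L[ℂ] H} (he : IsStarProjection e) (a b : H) :
    (inner ℂ (e a) b : ℂ) = inner ℂ a (e b) := by
  have h := inner_star_left e a b
  rwa [he.isSelfAdjoint.star_eq] at h

/-- The quadratic form of a self-adjoint operator in the decomposition of a projection. -/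
lemma split_form {R e : H →L[ℂ] H} (he : IsStarProjection e) (hc : e * R = R * e) (ζ : H) :
    (inner ℂ ζ (R ζ) : ℂ) =
      inner ℂ (e ζ) (R (e ζ)) + inner ℂ (ζ - e ζ) (R (ζ - e ζ)) := by
  have e0 : e (ζ - e ζ) = 0 := by
    rw [map_sub, ← mul_app e e, he.isIdempotentElem.eq, sub_self]
  have h1 : (inner ℂ (e ζ) (R (ζ - e ζ)) : ℂ) = 0 := by
    rw [inner_proj_left he, ← mul_app e R, hc, mul_app, e0, map_zero, inner_zero_right]
  have h2 : (inner ℂ (ζ - e ζ) (R (e ζ)) : ℂ) = 0 := by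
    rw [← mul_app R e, ← hc, mul_app, ← inner_proj_left he, e0, inner_zero_left]
  have h3 : (inner ℂ ζ (R ζ) : ℂ) = inner ℂ (e ζ + (ζ - e ζ)) (R (e ζ + (ζ - e ζ))) := by
    rw [add_sub_cancel]
  rw [h3, map_add, inner_add_left, inner_add_right, inner_add_right, h1, h2]
  ring

lemma inner_proj {e : H →L[ℂ] H} (he : IsStarProjection e) (ζ : H) :
    (inner ℂ ζ (e ζ) : ℂ) = ((‖e ζ‖ ^ 2 : ℝ) : ℂ) := tr_proj ζ he

lemma split_norm {e : H →L[ℂ] H} (he : IsStarProjection e) (ζ : H) :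
    ‖ζ‖ ^ 2 = ‖e ζ‖ ^ 2 + ‖ζ - e ζ‖ ^ 2 := by
  have h := split_form (R := (1 : H →L[ℂ] H)) he (by rw [mul_one, one_mul]) ζ
  simp only [ContinuousLinearMap.one_apply] at h
  rw [inner_self_eq_norm_sq_to_K, inner_self_eq_norm_sq_to_K, inner_self_eq_norm_sq_to_K] at h
  exact_mod_cast h

/-- One step of the dyadic expansion. -/
lemma dyadic_step (hSP : T_SP H) {M : VonNeumannAlgebra H} {p R : H →L[ℂ] H}
    (hpM : p ∈ M) (hp : IsStarProjection p) (hR : R ∈ corner M p) (hRs : IsSelfAdjoint R)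
    {C : ℝ} (hC : 0 ≤ C)
    (hq : ∀ ζ : H, 0 ≤ (inner ℂ ζ (R ζ) : ℂ).re ∧ (inner ℂ ζ (R ζ) : ℂ).re ≤ C * ‖ζ‖ ^ 2) :
    ∃ e : H →L[ℂ] H, (e ∈ M ∧ IsStarProjection e ∧ p * e = e) ∧
      ∀ ζ : H, 0 ≤ (inner ℂ ζ ((R - ((C / 2 : ℝ) : ℂ) • e) ζ) : ℂ).re ∧
        (inner ℂ ζ ((R - ((C / 2 : ℝ) : ℂ) • e) ζ) : ℂ).re ≤ C / 2 * ‖ζ‖ ^ 2 := by
  obtain ⟨E, hEM, hE, hEc, hE1, hE0⟩ := hSP M R hR.1 hRs (C / 2)
  have hpR : p * R = R := corner_left hp hR
  have hRp : R * p = R := corner_right hp hR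
  have hpE : p * E = E * p := hEc p (by rw [hpR, hRp])
  have hRE : R * E = E * R := hEc R rfl
  have hee : p * E * (p * E) = p * E := by
    calc p * E * (p * E) = p * (E * p) * E := by simp only [mul_assoc]
      _ = p * (p * E) * E := by rw [hpE]
      _ = (p * p) * (E * E) := by simp only [mul_assoc]
      _ = p * E := by rw [hp.isIdempotentElem.eq, hE.isIdempotentElem.eq]
  have hes : star (p * E) = p * E := by
    rw [star_mul, hp.isSelfAdjoint.star_eq, hE.isSelfAdjoint.star_eq, hpE]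
  have he : IsStarProjection (p * E) := ⟨hee, hes⟩
  have hpe : p * (p * E) = p * E := by rw [← mul_assoc, hp.isIdempotentElem.eq]
  have heR : p * E * R = R * (p * E) := by
    calc p * E * R = p * (E * R) := by rw [mul_assoc]
      _ = p * (R * E) := by rw [hRE]
      _ = (p * R) * E := by rw [mul_assoc]
      _ = (R * p) * E := by rw [hpR, hRp]
      _ = R * (p * E) := by rw [mul_assoc]
  refine ⟨p * E, ⟨mul_mem hpM hEM, he, hpe⟩, ?_⟩
  intro ζ
  set e := p * E with hedef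
  set x := e ζ with hx
  set y := ζ - e ζ with hy
  have hs := split_form he heR ζ
  have hn := split_norm he ζ
  have hval : (inner ℂ ζ ((R - ((C / 2 : ℝ) : ℂ) • e) ζ) : ℂ).re =
      (inner ℂ x (R x) : ℂ).re + (inner ℂ y (R y) : ℂ).re - C / 2 * ‖x‖ ^ 2 := by
    rw [ContinuousLinearMap.sub_apply, ContinuousLinearMap.smul_apply, inner_sub_right,
      inner_smul_right, inner_proj he, hs, ← Complex.ofReal_mul, Complex.sub_re,
      Complex.add_re, Complex.ofReal_re]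
  have hEx : E x = x := by
    rw [hx, ← mul_app E e, hedef, ← mul_assoc, ← hpE, mul_assoc, hE.isIdempotentElem.eq]
  have h1 := hE1 x hEx
  have h2 : (inner ℂ y (R y) : ℂ).re ≤ C / 2 * ‖y‖ ^ 2 := by
    have hey : e y = 0 := by
      rw [hy, map_sub, ← mul_app e e, he.isIdempotentElem.eq, sub_self]
    have hEp : E (p y) = 0 := by
      rw [← mul_app E p, ← hpE]; exact hey
    have h3 := hE0 (p y) hEp
    have h4 : (inner ℂ (p y) (R (p y)) : ℂ) = inner ℂ y (R y) := by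
      rw [← mul_app R p, hRp, inner_proj_left hp, ← mul_app p R, hpR]
    rw [h4] at h3
    refine h3.trans ?_
    apply mul_le_mul_of_nonneg_left _ (by linarith)
    exact pow_le_pow_left₀ (norm_nonneg _) (proj_apply_norm_le hp y) 2
  have h5 := hq x
  have h6 := hq y
  rw [hval]
  constructor
  · linarith [h6.1]
  · have : ‖ζ‖ ^ 2 = ‖x‖ ^ 2 + ‖y‖ ^ 2 := hn
    rw [this]
    nlinarith [h5.2]

/-- The dyadic expansion. -/
lemma dyadic (hSP : T_SP H) {M : VonNeumannAlgebra H} {p R : H →L[ℂ] H}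
    (hpM : p ∈ M) (hp : IsStarProjection p) (hR : R ∈ corner M p) (hRs : IsSelfAdjoint R)
    {C : ℝ} (hC : 0 ≤ C)
    (hq : ∀ ζ : H, 0 ≤ (inner ℂ ζ (R ζ) : ℂ).re ∧ (inner ℂ ζ (R ζ) : ℂ).re ≤ C * ‖ζ‖ ^ 2)
    (n : ℕ) : ∃ b : H →L[ℂ] H, Comb M p b ∧ R - b ∈ corner M p ∧ IsSelfAdjoint (R - b) ∧
      ∀ ζ : H, 0 ≤ (inner ℂ ζ ((R - b) ζ) : ℂ).re ∧
        (inner ℂ ζ ((R - b) ζ) : ℂ).re ≤ C / 2 ^ n * ‖ζ‖ ^ 2 := by
  induction n with
  | zero =>
    refine ⟨0, ⟨0, Fin.elim0, Fin.elim0, fun i => i.elim0, by simp⟩, by simpa using hR,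
      by simpa using hRs, fun ζ => ?_⟩
    rw [sub_zero, pow_zero, div_one]
    exact hq ζ
  | succ n ih =>
    obtain ⟨b, hb, hRb, hRbs, hqb⟩ := ih
    have hC' : 0 ≤ C / 2 ^ n := by positivity
    obtain ⟨e, he, hqe⟩ := dyadic_step hSP hpM hp hRb hRbs hC' hqb
    refine ⟨b + (((C / 2 ^ n / 2 : ℝ) : ℝ) : ℂ) • e, hb.add_proj he _, ?_, ?_, ?_⟩
    · rw [← sub_sub]
      exact corner_sub hRb (corner_smul _ (proj_mem_corner hp he.1 he.2.1 he.2.2))
    · rw [← sub_sub]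
      apply hRbs.sub
      show star _ = _
      rw [star_smul, he.2.1.isSelfAdjoint.star_eq]
      congr 1
      exact Complex.conj_ofReal _
    · intro ζ
      have h := hqe ζ
      rw [← sub_sub]
      have e1 : C / 2 ^ (n + 1) = C / 2 ^ n / 2 := by rw [pow_succ, div_div]
      rw [e1]
      exact h

/-- The norm of an operator with small nonnegative quadratic form. -/
lemma norm_le_of_form {T : H →L[ℂ] H} (hT : IsSelfAdjoint T) {δ : ℝ} (hδ : 0 ≤ δ)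
    (h : ∀ ζ : H, 0 ≤ (inner ℂ ζ (T ζ) : ℂ).re ∧ (inner ℂ ζ (T ζ) : ℂ).re ≤ δ * ‖ζ‖ ^ 2) :
    ‖T‖ ≤ δ := by
  have hcomm : ∀ (S : H →L[ℂ] H) (x : H), (inner ℂ (S x) x : ℂ).re = (inner ℂ x (S x) : ℂ).re := by
    intro S x
    rw [← inner_conj_symm]
    exact Complex.conj_re _
  have h0 : 0 ≤ T := by
    rw [ContinuousLinearMap.nonneg_iff_isPositive, ContinuousLinearMap.isPositive_def']
    refine ⟨hT, fun x => ?_⟩
    have := (h x).1
    rw [← hcomm] at this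
    exact this
  rw [CStarAlgebra.norm_le_iff_le_algebraMap T hδ h0]
  rw [ContinuousLinearMap.le_def, ContinuousLinearMap.isPositive_def']
  refine ⟨?_, fun x => ?_⟩
  · exact (IsSelfAdjoint.algebraMap _ (IsSelfAdjoint.all δ)).sub hT
  · have e1 : ((algebraMap ℝ (H →L[ℂ] H) δ) x) = (δ : ℂ) • x := by
      rw [Algebra.algebraMap_eq_smul_one]
      simp
    have e2 : (inner ℂ ((algebraMap ℝ (H →L[ℂ] H) δ - T) x) x : ℂ).re =
        δ * ‖x‖ ^ 2 - (inner ℂ x (T x) : ℂ).re := by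
      rw [hcomm, ContinuousLinearMap.sub_apply, e1, inner_sub_right, inner_smul_right,
        inner_self_eq_norm_sq_to_K, Complex.sub_re]
      congr 1
      have : (δ : ℂ) * ((‖x‖ : ℝ) : ℂ) ^ 2 = ((δ * ‖x‖ ^ 2 : ℝ) : ℂ) := by push_cast; rfl
      exact (congrArg Complex.re this).trans (Complex.ofReal_re _)
    have e3 : 0 ≤ (inner ℂ ((algebraMap ℝ (H →L[ℂ] H) δ - T) x) x : ℂ).re := by
      rw [e2]
      linarith [(h x).2]
    exact e3

theorem pf_SPN (hSP : T_SP H) : T_SPN H := by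
  intro M p hpM hp a ha has ε hε
  -- the shifted operator
  set R : H →L[ℂ] H := a + ((‖a‖ : ℝ) : ℂ) • p with hR
  have hpc := p_mem_corner hpM hp
  have hRc : R ∈ corner M p := corner_add ha (corner_smul _ hpc)
  have hRs : IsSelfAdjoint R := by
    apply has.add
    show star _ = _
    rw [star_smul, hp.isSelfAdjoint.star_eq]
    congr 1
    exact Complex.conj_ofReal _
  have hform : ∀ ζ : H, (inner ℂ ζ (R ζ) : ℂ).re =
      (inner ℂ (p ζ) (a (p ζ)) : ℂ).re + ‖a‖ * ‖p ζ‖ ^ 2 := by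
    intro ζ
    rw [hR, ContinuousLinearMap.add_apply, ContinuousLinearMap.smul_apply, inner_add_right,
      inner_smul_right, inner_proj hp, ← Complex.ofReal_mul, Complex.add_re, Complex.ofReal_re]
    congr 2
    rw [← mul_app a p, corner_right hp ha, inner_proj_left hp, ← mul_app p a, corner_left hp ha]
  have hbd : ∀ η : H, |(inner ℂ η (a η) : ℂ).re| ≤ ‖a‖ * ‖η‖ ^ 2 := by
    intro η
    have h1 : |(inner ℂ η (a η) : ℂ).re| ≤ ‖(inner ℂ η (a η) : ℂ)‖ := Complex.abs_re_le_norm _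
    have h2 : ‖(inner ℂ η (a η) : ℂ)‖ ≤ ‖η‖ * ‖a η‖ := norm_inner_le_norm _ _
    have h3 : ‖a η‖ ≤ ‖a‖ * ‖η‖ := a.le_opNorm η
    have h4 : ‖η‖ * ‖a η‖ ≤ ‖η‖ * (‖a‖ * ‖η‖) := mul_le_mul_of_nonneg_left h3 (norm_nonneg _)
    calc _ ≤ _ := h1
      _ ≤ _ := h2
      _ ≤ _ := h4
      _ = _ := by ring
  have hq : ∀ ζ : H, 0 ≤ (inner ℂ ζ (R ζ) : ℂ).re ∧
      (inner ℂ ζ (R ζ) : ℂ).re ≤ (2 * ‖a‖) * ‖ζ‖ ^ 2 := by
    intro ζ
    rw [hform]
    have h1 := abs_le.1 (hbd (p ζ))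
    have h2 : ‖p ζ‖ ^ 2 ≤ ‖ζ‖ ^ 2 :=
      pow_le_pow_left₀ (norm_nonneg _) (proj_apply_norm_le hp ζ) 2
    constructor
    · linarith [h1.1]
    · have h3 : ‖a‖ * ‖p ζ‖ ^ 2 ≤ ‖a‖ * ‖ζ‖ ^ 2 := mul_le_mul_of_nonneg_left h2 (norm_nonneg _)
      linarith [h1.2]
  obtain ⟨n, hn⟩ : ∃ n : ℕ, 2 * ‖a‖ / 2 ^ n ≤ ε := by
    obtain ⟨n, hn⟩ := pow_unbounded_of_one_lt (2 * ‖a‖ / ε) (one_lt_two)
    refine ⟨n, ?_⟩
    rw [div_le_iff₀ (by positivity)]
    rw [div_lt_iff₀ hε] at hn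
    linarith
  obtain ⟨b, hb, _, hbs, hqb⟩ := dyadic hSP hpM hp hRc hRs (by positivity) hq n
  have hnorm := norm_le_of_form hbs (by positivity) hqb
  obtain ⟨m, c, e, he, hbe⟩ := hb.add_proj ⟨hpM, hp, hp.isIdempotentElem.eq⟩ (-‖a‖)
  refine ⟨m, c, e, he, ?_⟩
  rw [← hbe]
  have e1 : a - (b + ((-‖a‖ : ℝ) : ℂ) • p) = R - b := by
    rw [hR, Complex.ofReal_neg, neg_smul]
    abel
  rw [e1]
  exact hnorm.trans hn

end

end Pool.Agent.H20.BC
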